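import Pool.Agent.W770.PC.Stms

set_option autoImplicit false

/-!
Subtask PC-main: the main theorem for tame phases from the lemmas.
-/

open MeasureTheory Set Filter Topology
open scoped ENNReal NNReal

namespace Pool.Agent.W724.PC

open Pool.Agent.W770.PC

theorem meas_sum (s : Finset ℕ) (f : ℕ → ((ℝ × ℝ) × ℝ) → ℂ) (hf : ∀ i ∈ s, Measurable (f i)) :
    Measurable (∑ i ∈ s, f i) := by
  have : (∑ i ∈ s, f i) = fun z => ∑ i ∈ s, f i z := by
    ext z
    simp
  rw [this]
  exact Finset.measurable_sum s hf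

theorem main_thm (h1 : S_decomp) (h2 : S_sup) (h3 : S_L2) (h4 : S_meas) (h5 : S_lp)
    (h6 : S_sum) : S_main := by
  intro p C B hp
  obtain ⟨K2, hK2, H2⟩ := h2 C B
  obtain ⟨K3, hK3, H3⟩ := h3 C B
  obtain ⟨c, Hc⟩ := h1 C
  set K : ℝ := max K2 K3 with hK
  have hK0 : 0 ≤ K := le_trans hK2 (le_max_left _ _)
  have hK2K : K2 ≤ K := le_max_left _ _
  have hK3K : K3 ≤ K := le_max_right _ _
  obtain ⟨M, hM0, HM⟩ := h6 p K c hp hK0
  refine ⟨(K ^ (p - 2) * K) ^ (1 / p) + M, ?_⟩
  intro ψ F h hψ hT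
  obtain ⟨-, -, -, hmu, hmz⟩ := h4 C B ψ F h hψ hT.smF hT.smh
  have Hs := H2 ψ F h hψ hT
  obtain ⟨Hu2, Hz2⟩ := H3 ψ F h hψ hT
  have hp2 : (2 : ℝ) ≤ p := by linarith
  have hp1 : (1 : ℝ≥0∞) ≤ ENNReal.ofReal p := by
    rw [← ENNReal.ofReal_one]
    exact ENNReal.ofReal_le_ofReal (by linarith)
  -- the pieces
  set U : ℕ → ℕ → (ℝ × ℝ) × ℝ → ℂ := fun a b z => uu C ψ (ph F h z.2) (a + 1) b z.1 with hU
  set Z : (ℝ × ℝ) × ℝ → ℂ := fun z => uz ψ (ph F h z.2) z.1 with hZ
  set G : (ℝ × ℝ) × ℝ → ℂ := fun z => EE h (fun y => ψ y * ee (F y)) z.1 z.2 with hG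
  have hUm : ∀ a b, Measurable (U a b) := fun a b => hmu (a + 1) b
  have hZm : Measurable Z := hmz
  have hUle : ∀ a b, eLpNorm (U a b) (ENNReal.ofReal p) volume ≤
      ENNReal.ofReal (((K * min (1 / 2 ^ (a + 1)) (1 / 2 ^ b)) ^ (p - 2) * (K * 2 ^ b)) ^ (1 / p)) := by
    intro a b
    refine h5 (U a b) _ _ p (hUm a b) ?_ ?_ hp2 ?_ ?_
    · exact mul_nonneg hK0 (le_min (by positivity) (by positivity))
    · positivity
    · intro z
      refine le_trans ((Hs z.2 z.1).1 (a + 1) b) ?_
      exact mul_le_mul_of_nonneg_right hK2K (le_min (by positivity) (by positivity))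
    · refine le_trans (Hu2 (a + 1) b) (ENNReal.ofReal_le_ofReal ?_)
      exact mul_le_mul_of_nonneg_right hK3K (by positivity)
  have hZle : eLpNorm Z (ENNReal.ofReal p) volume ≤
      ENNReal.ofReal ((K ^ (p - 2) * K) ^ (1 / p)) := by
    refine h5 Z _ _ p hZm hK0 hK0 hp2 ?_ ?_
    · intro z
      exact le_trans ((Hs z.2 z.1).2) hK2K
    · exact le_trans Hz2 (ENNReal.ofReal_le_ofReal hK3K)
  -- bound for the truncated functions
  have key : ∀ n : ℕ, ∃ V : (ℝ × ℝ) × ℝ → ℂ, Measurable V ∧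
      (∀ z : (ℝ × ℝ) × ℝ, |z.2| ≤ n → V z = G z) ∧
      eLpNorm V (ENNReal.ofReal p) volume ≤
        ENNReal.ofReal ((K ^ (p - 2) * K) ^ (1 / p) + M) := by
    intro n
    obtain ⟨A, HA⟩ := Hc B ψ F h hψ hT (n : ℝ)
    refine ⟨Z + ∑ a ∈ Finset.range A, ∑ b ∈ Finset.range (2 * (a + 1) + c), U a b, ?_, ?_, ?_⟩
    · refine hZm.add ?_
      exact meas_sum _ _ (fun a _ => meas_sum _ _ (fun b _ => hUm a b))
    · intro z hz
      have := HA A le_rfl z.2 hz z.1
      simp only [hG]
      rw [this]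
      simp [hZ, hU, Finset.sum_apply]
    · have hS1 : eLpNorm (∑ a ∈ Finset.range A, ∑ b ∈ Finset.range (2 * (a + 1) + c), U a b)
          (ENNReal.ofReal p) volume ≤ ENNReal.ofReal M := by
        calc eLpNorm (∑ a ∈ Finset.range A, ∑ b ∈ Finset.range (2 * (a + 1) + c), U a b)
              (ENNReal.ofReal p) volume
            ≤ ∑ a ∈ Finset.range A, eLpNorm (∑ b ∈ Finset.range (2 * (a + 1) + c), U a b)
              (ENNReal.ofReal p) volume := by
                refine eLpNorm_sum_le (fun a _ => ?_) hp1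
                exact (meas_sum _ _ (fun b _ => hUm a b)).aestronglyMeasurable
          _ ≤ ∑ a ∈ Finset.range A, ∑ b ∈ Finset.range (2 * (a + 1) + c),
              eLpNorm (U a b) (ENNReal.ofReal p) volume := by
                refine Finset.sum_le_sum (fun a _ => ?_)
                exact eLpNorm_sum_le (fun b _ => (hUm a b).aestronglyMeasurable) hp1
          _ ≤ ∑ a ∈ Finset.range A, ∑ b ∈ Finset.range (2 * (a + 1) + c),
              ENNReal.ofReal (((K * min (1 / 2 ^ (a + 1)) (1 / 2 ^ b)) ^ (p - 2) *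
                (K * 2 ^ b)) ^ (1 / p)) :=
                Finset.sum_le_sum (fun a _ => Finset.sum_le_sum (fun b _ => hUle a b))
          _ = ENNReal.ofReal (∑ a ∈ Finset.range A, ∑ b ∈ Finset.range (2 * (a + 1) + c),
              ((K * min (1 / 2 ^ (a + 1)) (1 / 2 ^ b)) ^ (p - 2) * (K * 2 ^ b)) ^ (1 / p)) := by
                have hnn : ∀ a b : ℕ, 0 ≤ ((K * min (1 / 2 ^ (a + 1)) (1 / 2 ^ b)) ^ (p - 2) *
                    (K * 2 ^ b)) ^ (1 / p) := by
                  intro a b
                  have : 0 ≤ K * min (1 / 2 ^ (a + 1)) (1 / 2 ^ b) :=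
                    mul_nonneg hK0 (le_min (by positivity) (by positivity))
                  exact Real.rpow_nonneg (mul_nonneg (Real.rpow_nonneg this _)
                    (by positivity)) _
                rw [ENNReal.ofReal_sum_of_nonneg]
                · refine Finset.sum_congr rfl (fun a _ => ?_)
                  rw [ENNReal.ofReal_sum_of_nonneg]
                  intro b _
                  exact hnn a b
                · intro a _
                  exact Finset.sum_nonneg (fun b _ => hnn a b)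
          _ ≤ ENNReal.ofReal M := ENNReal.ofReal_le_ofReal (HM A)
      have hnn : 0 ≤ (K ^ (p - 2) * K) ^ (1 / p) :=
        Real.rpow_nonneg (mul_nonneg (Real.rpow_nonneg hK0 _) hK0) _
      calc eLpNorm (Z + ∑ a ∈ Finset.range A, ∑ b ∈ Finset.range (2 * (a + 1) + c), U a b)
            (ENNReal.ofReal p) volume
          ≤ eLpNorm Z (ENNReal.ofReal p) volume +
            eLpNorm (∑ a ∈ Finset.range A, ∑ b ∈ Finset.range (2 * (a + 1) + c), U a b)
              (ENNReal.ofReal p) volume := by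
              refine eLpNorm_add_le hZm.aestronglyMeasurable ?_ hp1
              exact (meas_sum _ _ (fun a _ =>
                meas_sum _ _ (fun b _ => hUm a b))).aestronglyMeasurable
        _ ≤ ENNReal.ofReal ((K ^ (p - 2) * K) ^ (1 / p)) + ENNReal.ofReal M :=
            add_le_add hZle hS1
        _ = ENNReal.ofReal ((K ^ (p - 2) * K) ^ (1 / p) + M) :=
            (ENNReal.ofReal_add hnn hM0).symm
  choose V hVm hVG hVle using key
  set S : ℕ → Set ((ℝ × ℝ) × ℝ) := fun n => {z | |z.2| ≤ n} with hS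
  have hSm : ∀ n, MeasurableSet (S n) := by
    intro n
    have : Measurable (fun z : (ℝ × ℝ) × ℝ => |z.2|) := measurable_snd.norm
    exact measurableSet_le this measurable_const
  have hlim : ∀ᵐ z ∂(volume : Measure ((ℝ × ℝ) × ℝ)),
      Tendsto (fun n => (S n).indicator (V n) z) atTop (𝓝 (G z)) := by
    refine Eventually.of_forall (fun z => ?_)
    obtain ⟨N, hN⟩ := exists_nat_ge |z.2|
    refine tendsto_const_nhds.congr' ?_
    filter_upwards [eventually_ge_atTop N] with n hn
    have hz : |z.2| ≤ n := le_trans hN (by exact_mod_cast hn)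
    have hzS : z ∈ S n := hz
    rw [indicator_of_mem hzS, hVG n z hz]
  have hfin := Lp.eLpNorm_lim_le_liminf_eLpNorm (p := ENNReal.ofReal p)
    (f := fun n => (S n).indicator (V n))
    (fun n => ((hVm n).indicator (hSm n)).aestronglyMeasurable) G hlim
  refine le_trans hfin ?_
  refine liminf_le_of_le (by isBoundedDefault) ?_
  intro b hb
  obtain ⟨n, hn⟩ := hb.exists
  exact le_trans hn (le_trans (eLpNorm_indicator_le _) (hVle n))

end Pool.Agent.W724.PC
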